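import Pool.Agent.Helper34.EC.Defs

/-!
# Project EC, module C6: the ring of the smoothing is integrally closed
-/

set_option autoImplicit false

namespace Pool.Agent.Helper50.EC

open Polynomial TensorProduct Pool.Agent.Helper34.EC

section C

variable {k : Type} [Field k] {g : ℕ}

theorem Bd_mono {M N : ℕ} {f : PowerSeries k[X]} (h : Bd g M f) (hMN : M ≤ N) : Bd g N f :=
  fun n => (h n).trans (by omega)

theorem Bd_zero (M : ℕ) : Bd g M (0 : PowerSeries k[X]) := fun n => by simp

theorem Bd_one (M : ℕ) : Bd g M (1 : PowerSeries k[X]) := fun n => by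
  rw [PowerSeries.coeff_one]; split_ifs <;> simp

theorem Bd_add {M : ℕ} {f h : PowerSeries k[X]} (hf : Bd g M f) (hh : Bd g M h) :
    Bd g M (f + h) := fun n => by
  rw [map_add]
  exact (natDegree_add_le _ _).trans (max_le (hf n) (hh n))

theorem Bd_neg {M : ℕ} {f : PowerSeries k[X]} (hf : Bd g M f) : Bd g M (-f) := fun n => by
  rw [map_neg, natDegree_neg]; exact hf n

theorem Bd_mul {M N : ℕ} {f h : PowerSeries k[X]} (hf : Bd g M f) (hh : Bd g N h) :
    Bd g (M + N) (f * h) := by
  intro n
  rw [PowerSeries.coeff_mul]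
  apply natDegree_sum_le_of_forall_le
  intro p hp
  have h5 : p.1 + p.2 = n := Finset.HasAntidiagonal.mem_antidiagonal.mp hp
  refine natDegree_mul_le.trans ?_
  have := hf p.1
  have := hh p.2
  subst h5
  ring_nf at *
  omega

theorem Bd_sum {ι : Type} {M : ℕ} (s : Finset ι) {f : ι → PowerSeries k[X]}
    (hf : ∀ i ∈ s, Bd g M (f i)) : Bd g M (∑ i ∈ s, f i) := by
  classical
  induction s using Finset.induction_on with
  | empty => simpa using Bd_zero M
  | insert a s ha ih =>
    rw [Finset.sum_insert ha]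
    exact Bd_add (hf a (Finset.mem_insert_self a s))
      (ih fun i hi => hf i (Finset.mem_insert_of_mem hi))

theorem Bd_pow {M : ℕ} {f : PowerSeries k[X]} (hf : Bd g M f) (j : ℕ) : Bd g (M * j) (f ^ j) := by
  induction j with
  | zero => simpa using Bd_one 0
  | succ j ih => rw [pow_succ, mul_add, mul_one]; exact Bd_mul ih hf

theorem Bd_natCast (m : ℕ) : Bd g 0 ((m : ℕ) : PowerSeries k[X]) := by
  induction m with
  | zero => simpa using Bd_zero 0
  | succ m ih => rw [Nat.cast_succ]; exact Bd_add ih (Bd_one 0)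

/-- A power series with all `b f^j` bounded by `D + M j` is bounded. -/
theorem Bd_of_almost {D M : ℕ} {b f : PowerSeries k[X]} (hb : b ≠ 0)
    (h : ∀ j, Bd g (D + M * j) (b * f ^ j)) : Bd g M f := by
  -- the order of `b`
  obtain ⟨l, b1, hb1, rfl⟩ : ∃ (l : ℕ) (b1 : PowerSeries k[X]),
      PowerSeries.constantCoeff b1 ≠ 0 ∧ b = PowerSeries.X ^ l * b1 := by
    obtain ⟨l, hl1, hl2⟩ : ∃ l, PowerSeries.coeff l b ≠ 0 ∧ ∀ m < l, PowerSeries.coeff m b = 0 := by
      have hex : ∃ l, PowerSeries.coeff l b ≠ 0 := by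
        by_contra hcon
        push Not at hcon
        exact hb (PowerSeries.ext fun n => by simpa using hcon n)
      classical
      exact ⟨Nat.find hex, Nat.find_spec hex, fun m hm => by
        have := Nat.find_min hex hm
        simpa using this⟩
    obtain ⟨b1, hb1⟩ := PowerSeries.X_pow_dvd_iff.mpr hl2
    refine ⟨l, b1, ?_, hb1⟩
    rw [hb1] at hl1
    have := PowerSeries.coeff_X_pow_mul b1 l 0
    rw [zero_add] at this
    rw [this] at hl1
    simpa using hl1
  intro n
  induction n using Nat.strong_induction_on with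
  | _ n ih =>
    -- the truncation
    obtain ⟨f0, hf0, hf0', hf0''⟩ : ∃ f0 : PowerSeries k[X], Bd g M f0 ∧
        (∀ m < n, PowerSeries.coeff m (f - f0) = 0) ∧ PowerSeries.coeff n (f - f0) =
          PowerSeries.coeff n f := by
      refine ⟨PowerSeries.mk fun m => if m < n then PowerSeries.coeff m f else 0, ?_, ?_, ?_⟩
      · intro m
        rw [PowerSeries.coeff_mk]
        split_ifs with hm
        · exact ih m hm
        · simp
      · intro m hm
        rw [map_sub, PowerSeries.coeff_mk, if_pos hm, sub_self]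
      · rw [map_sub, PowerSeries.coeff_mk, if_neg (lt_irrefl n), sub_zero]
    obtain ⟨h1, hh1⟩ : ∃ h1, f - f0 = PowerSeries.X ^ n * h1 :=
      PowerSeries.X_pow_dvd_iff.mpr hf0'
    have hcn : PowerSeries.constantCoeff h1 = PowerSeries.coeff n f := by
      have e3 := PowerSeries.coeff_X_pow_mul h1 n 0
      rw [zero_add, ← hh1, PowerSeries.coeff_zero_eq_constantCoeff_apply] at e3
      rw [← e3, hf0'']
    by_contra hcon
    push Not at hcon
    have hne : PowerSeries.coeff n f ≠ 0 := by
      intro h0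
      rw [h0] at hcon
      simp at hcon
    have key : ∀ j, (PowerSeries.constantCoeff b1).natDegree + j * (PowerSeries.coeff n f).natDegree
        ≤ D + M * j + 2 * g * (l + n * j) := by
      intro j
      have hbd : Bd g (D + M * j) (PowerSeries.X ^ l * b1 * (f - f0) ^ j) := by
        rw [sub_eq_add_neg, add_pow, Finset.mul_sum]
        apply Bd_sum
        intro i hi
        have hi' : i ≤ j := Nat.lt_succ_iff.mp (Finset.mem_range.mp hi)
        have e1 : PowerSeries.X ^ l * b1 * (f ^ i * (-f0) ^ (j - i) * (j.choose i : PowerSeries k[X]))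
            = PowerSeries.X ^ l * b1 * f ^ i * ((-f0) ^ (j - i) * (j.choose i : PowerSeries k[X])) := by
          ring
        rw [e1]
        refine Bd_mono (Bd_mul (h i) (Bd_mul (Bd_pow (Bd_neg hf0) (j - i)) (Bd_natCast _))) ?_
        obtain ⟨e, rfl⟩ := Nat.exists_eq_add_of_le hi'
        rw [Nat.add_sub_cancel_left]
        ring_nf
        omega
      have h3 := hbd (l + n * j)
      have e2 : PowerSeries.X ^ l * b1 * (f - f0) ^ j =
          PowerSeries.X ^ (l + n * j) * (b1 * h1 ^ j) := by
        rw [hh1, mul_pow, ← pow_mul, pow_add]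
        ring
      rw [e2] at h3
      have e3 := PowerSeries.coeff_X_pow_mul (b1 * h1 ^ j) (l + n * j) 0
      rw [zero_add] at e3
      rw [e3, PowerSeries.coeff_zero_eq_constantCoeff_apply, map_mul, map_pow, hcn,
        natDegree_mul hb1 (pow_ne_zero _ hne), natDegree_pow] at h3
      exact h3
    have h4 := key (D + 2 * g * l + 1)
    have h5 : (D + 2 * g * l + 1) * (M + 2 * g * n + 1) ≤
        (D + 2 * g * l + 1) * (PowerSeries.coeff n f).natDegree := Nat.mul_le_mul_left _ hcon
    nlinarith

theorem swap_injective : Function.Injective (swap : PowerSeries (PowerSeries k) →+* _) := by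
  intro f h hfh
  ext a b
  rw [← coeff_swap, hfh, coeff_swap]

theorem EE_ne_zero (c : Fin g × Bool → k) (hc : Function.Injective c) (e : Fin g × Bool)
    {f : PowerSeries k[X]} (hf : f ≠ 0) : EE c e f ≠ 0 := by
  intro h0
  apply hf
  ext1 n
  have h1 := coeff_EE c e f n
  rw [h0, map_zero] at h1
  have huu : uu c e ≠ 0 := by
    intro h
    have := TT_De_mul_uu c hc e
    rw [h, mul_zero] at this
    exact zero_ne_one this
  have h2 : TT (c e) (PowerSeries.coeff n f) = 0 := by
    rcases mul_eq_zero.mp h1.symm with h | h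
    · exact absurd h (pow_ne_zero _ huu)
    · exact h
  have h3 : ((taylor (c e) (PowerSeries.coeff n f) : k[X]) : PowerSeries k) = 0 := h2
  rw [Polynomial.coe_eq_zero_iff] at h3
  rw [map_zero]
  exact (taylor_injective (c e)) (by rw [h3, map_zero])

theorem Bd_of_integral {R : Type} [CommRing R] (ψ : R →+* PowerSeries k[X])
    (hψ : ∀ r, ∃ M, Bd g M (ψ r)) {a b : R} {f : PowerSeries k[X]} (hb : ψ b ≠ 0)
    (hfab : ψ b * f = ψ a) {p : R[X]} (hp : p.Monic) (hpf : p.eval₂ ψ f = 0) :
    ∃ M, Bd g M f := by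
  obtain ⟨Ma, hMa⟩ := hψ a
  obtain ⟨Mb, hMb⟩ := hψ b
  choose Mc hMc using fun i => hψ (p.coeff i)
  obtain ⟨M, hM1, hM2, hM3⟩ : ∃ M, Ma ≤ M ∧ Mb ≤ M ∧ ∀ i ∈ Finset.range p.natDegree, Mc i ≤ M :=
    ⟨Ma + Mb + ∑ i ∈ Finset.range p.natDegree, Mc i, by omega, by omega, fun i hi =>
      (Finset.single_le_sum (f := Mc) (fun _ _ => Nat.zero_le _) hi).trans (by omega)⟩
  generalize hd : p.natDegree = d at hM3
  have e2 : f ^ d = -∑ i ∈ Finset.range d, ψ (p.coeff i) * f ^ i := by
    rw [eval₂_eq_sum_range, Finset.sum_range_succ, hp.coeff_natDegree, map_one, one_mul, hd] at hpf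
    exact eq_neg_of_add_eq_zero_right hpf
  refine ⟨M, Bd_of_almost (D := M * d) (b := ψ b ^ d) (pow_ne_zero _ hb) ?_⟩
  intro j
  induction j using Nat.strong_induction_on with
  | _ j ih =>
    by_cases hj : j ≤ d
    · have e1 : ψ b ^ d * f ^ j = ψ b ^ (d - j) * ψ a ^ j := by
        rw [← hfab, mul_pow, ← mul_assoc, ← pow_add, Nat.sub_add_cancel hj]
      rw [e1]
      refine Bd_mono (Bd_mul (Bd_pow (Bd_mono hMb hM2) _) (Bd_pow (Bd_mono hMa hM1) _)) ?_
      rw [← mul_add, Nat.sub_add_cancel hj]
      omega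
    · push Not at hj
      have e3 : ψ b ^ d * f ^ j = ∑ i ∈ Finset.range d,
          -(ψ (p.coeff i) * (ψ b ^ d * f ^ (j - d + i))) := by
        have e4 : f ^ j = f ^ (j - d) * f ^ d := by
          rw [← pow_add, Nat.sub_add_cancel hj.le]
        have e5 : ψ b ^ d * f ^ j = ψ b ^ d * f ^ (j - d) *
            -∑ i ∈ Finset.range d, ψ (p.coeff i) * f ^ i := by
          rw [← e2, mul_assoc, ← e4]
        rw [e5, mul_neg, Finset.mul_sum, Finset.sum_neg_distrib]
        refine congrArg _ (Finset.sum_congr rfl fun i _ => ?_)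
        rw [pow_add]
        ring
      rw [e3]
      apply Bd_sum
      intro i hi
      apply Bd_neg
      have hi' := Finset.mem_range.mp hi
      refine Bd_mono (Bd_mul (Bd_mono (hMc i) (hM3 i hi)) (ih _ (by omega))) ?_
      have h5 : j - d + i + 1 ≤ j := by omega
      calc M + (M * d + M * (j - d + i))
          = M * d + M * (j - d + i + 1) := by ring
        _ ≤ _ := by gcongr

/-- A root of a monic polynomial over a subring which lies in the fraction field of the subring
is given by an element of the big integrally closed domain. -/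
theorem exists_quot {R S : Type} [CommRing R] [IsDomain R] [CommRing S] [IsDomain S]
    [IsIntegrallyClosed S] (ψ : R →+* S) (hψ : Function.Injective ψ) (x : FractionRing R)
    (hx : IsIntegral R x) : ∃ (a b : R) (f : S) (p : R[X]), b ≠ 0 ∧
      x = algebraMap R (FractionRing R) a / algebraMap R (FractionRing R) b ∧
      ψ b * f = ψ a ∧ p.Monic ∧ p.eval₂ ψ f = 0 := by
  obtain ⟨a, b, hb, rfl⟩ := IsFractionRing.div_surjective (A := R) x
  have hb0 : b ≠ 0 := nonZeroDivisors.ne_zero hb
  have hinj : Function.Injective (algebraMap S (FractionRing S)) :=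
    IsFractionRing.injective S (FractionRing S)
  obtain ⟨φ, hφ⟩ : ∃ φ : FractionRing R →+* FractionRing S,
      ∀ r, φ (algebraMap R _ r) = algebraMap S _ (ψ r) :=
    ⟨IsFractionRing.lift (g := (algebraMap S (FractionRing S)).comp ψ) (hinj.comp hψ),
      fun r => IsFractionRing.lift_algebraMap _ r⟩
  obtain ⟨p, hp, hpx⟩ := hx
  have hy1 : p.eval₂ ((algebraMap S (FractionRing S)).comp ψ)
      (φ (algebraMap R _ a / algebraMap R _ b)) = 0 := by
    have h1 := congrArg φ hpx
    rw [hom_eval₂, map_zero] at h1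
    rw [← h1]
    congr 1
    ext r
    exact (hφ r).symm
  have hyint : IsIntegral S (φ (algebraMap R _ a / algebraMap R _ b)) := by
    refine ⟨p.map ψ, hp.map _, ?_⟩
    rw [eval₂_map]
    exact hy1
  obtain ⟨f, hf⟩ := (isIntegrallyClosed_iff (FractionRing S)).mp inferInstance hyint
  have hb1 : algebraMap S (FractionRing S) (ψ b) ≠ 0 := fun h =>
    hb0 (hψ (hinj (by rw [h, map_zero, map_zero])))
  refine ⟨a, b, f, p, hb0, rfl, ?_, hp, ?_⟩
  · apply hinj
    rw [map_mul, hf, map_div₀, hφ, hφ, mul_div_cancel₀ _ hb1]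
  · apply hinj
    rw [hom_eval₂, hf, map_zero]
    exact hy1

/-- EC-C6 -/
theorem isIntegrallyClosed_A (c : Pts k g) : IsIntegrallyClosed c.A := by
  rw [isIntegrallyClosed_iff (FractionRing c.A)]
  intro x hx
  obtain ⟨a, b, f, p, hb0, rfl, hfab, hp, hpf⟩ := exists_quot c.ps c.ps_injective x hx
  have hpsb : c.ps b ≠ 0 := fun h => hb0 (c.ps_injective (by rw [h, map_zero]))
  have hmem : f ∈ AA c.c := by
    refine ⟨fun i => ?_, ?_⟩
    · have h1 := ((mem_AA c.c _).mp (c.ps_mem b)).1 i
      have h2 := ((mem_AA c.c _).mp (c.ps_mem a)).1 i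
      rw [← hfab, map_mul, map_mul, map_mul, h1] at h2
      exact mul_left_cancel₀ (EE_ne_zero c.c c.inj _ hpsb) h2
    · exact Bd_of_integral c.ps (fun r => ((mem_AA c.c _).mp (c.ps_mem r)).2) hpsb hfab hp hpf
  obtain ⟨r, hr⟩ := c.exists_ps hmem
  refine ⟨r, ?_⟩
  have hbr : b * r = a := c.ps_injective (by rw [map_mul, hr, hfab])
  rw [← hbr, map_mul, mul_div_cancel_left₀]
  exact fun h => hb0 (IsFractionRing.injective c.A (FractionRing c.A) (by rw [h, map_zero]))

end C

end Pool.Agent.Helper50.EC
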